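import Mathlib
import Pool.Agent.TH95.PR.QuadF

/-! Representations of free groups in which every primitive element is unipotent with Jordan
blocks of size at most three have unipotent image; representations of `F_n`, `n ≥ 3`, in which all
primitive elements are annihilated by one polynomial of degree at most two have nilpotent image. -/

set_option autoImplicit false

namespace Pool.Agent.Results.MP_b319aa_al.JordanBlocksAtMostThree

open Matrix Polynomial

universe u

/-- `g` is a primitive element of the free group: the image of a free generator under an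
automorphism -/
def Primitive {n : ℕ} (g : FreeGroup (Fin n)) : Prop :=
  ∃ σ : FreeGroup (Fin n) ≃* FreeGroup (Fin n), ∃ i, g = σ (FreeGroup.of i)

/-- `ρ ∘ σ` is conjugate to `ρ` for every automorphism `σ` -/
def Characteristic {n d : ℕ} (ρ : FreeGroup (Fin n) →* SpecialLinearGroup (Fin d) ℂ) : Prop :=
  ∀ σ : FreeGroup (Fin n) ≃* FreeGroup (Fin n),
    ∃ g : SpecialLinearGroup (Fin d) ℂ, ∀ x : FreeGroup (Fin n), ρ (σ x) = g * ρ x * g⁻¹

/-- `(M - 1)^3 = 0`: the matrix is unipotent with Jordan blocks of size at most three -/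
def Cubic {K : Type u} [Field K] {d : ℕ} (M : Matrix (Fin d) (Fin d) K) : Prop :=
  (M - 1) ^ 3 = 0

/-- the matrix `M` is annihilated by a nonzero polynomial of degree at most two -/
def QuadMatrix {K : Type u} [Field K] {d : ℕ} (M : Matrix (Fin d) (Fin d) K) : Prop :=
  ∃ p : K[X], p ≠ 0 ∧ p.natDegree ≤ 2 ∧ aeval M p = 0

/-- `(M₁ - 1) ⋯ (M_d - 1) = 0` for all matrices `M_i` in the set `S` of `d × d` matrices -/
def UnipotentSet {K : Type u} [Field K] {d : ℕ} (S : Set (Matrix (Fin d) (Fin d) K)) : Prop :=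
  ∀ l : List (Matrix (Fin d) (Fin d) K), (∀ M ∈ l, M ∈ S) → l.length = d →
    (l.map fun M => M - 1).prod = 0

theorem set_of {K : Type u} [Field K] {d n : ℕ} (f : FreeGroup (Fin n) → Matrix (Fin d) (Fin d) K)
    (h : ∀ l : List (FreeGroup (Fin n)), l.length = d → (l.map fun g => f g - 1).prod = 0) :
    UnipotentSet (Set.range f) := by
  intro l hl hd
  obtain ⟨m, rfl⟩ : ∃ m : List (FreeGroup (Fin n)), m.map f = l := by
    have : l ∈ Set.range (List.map f) := by
      rw [Set.range_list_map]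
      exact hl
    exact this
  rw [List.length_map] at hd
  rw [List.map_map]
  exact h m hd

theorem conj_cubic {d : ℕ} {A g : SpecialLinearGroup (Fin d) ℂ}
    (h : Cubic (A : Matrix (Fin d) (Fin d) ℂ)) :
    Cubic ((g * A * g⁻¹ : SpecialLinearGroup (Fin d) ℂ) : Matrix (Fin d) (Fin d) ℂ) := by
  unfold Cubic at h ⊢
  have h1 : g.1 * (g⁻¹).1 = 1 := congrArg Subtype.val (mul_inv_cancel g)
  have h2 : (g⁻¹).1 * g.1 = 1 := congrArg Subtype.val (inv_mul_cancel g)
  have e0 : ((g * A * g⁻¹ : SpecialLinearGroup (Fin d) ℂ) : Matrix (Fin d) (Fin d) ℂ) =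
      g.1 * A.1 * (g⁻¹).1 := rfl
  rw [e0]
  change (A.1 - 1) ^ 3 = 0 at h
  generalize g.1 = P at *
  generalize (g⁻¹).1 = Q at *
  generalize A.1 = B at *
  have e : P * B * Q - 1 = P * (B - 1) * Q := by
    rw [mul_sub, sub_mul, mul_one, h1]
  rw [e]
  calc (P * (B - 1) * Q) ^ 3 = P * (B - 1) * (Q * P) * (B - 1) * (Q * P) * (B - 1) * Q := by
        noncomm_ring
    _ = P * (B - 1) ^ 3 * Q := by rw [h2]; noncomm_ring
    _ = 0 := by rw [h, mul_zero, zero_mul]

theorem conj_quad {d : ℕ} {A g : SpecialLinearGroup (Fin d) ℂ} {p : ℂ[X]}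
    (h : aeval (A : Matrix (Fin d) (Fin d) ℂ) p = 0) :
    aeval ((g * A * g⁻¹ : SpecialLinearGroup (Fin d) ℂ) : Matrix (Fin d) (Fin d) ℂ) p = 0 := by
  have h2 : (g⁻¹).1 * g.1 = 1 := congrArg Subtype.val (inv_mul_cancel g)
  have h1 : g.1 * (g⁻¹).1 = 1 := congrArg Subtype.val (mul_inv_cancel g)
  have e0 : ((g * A * g⁻¹ : SpecialLinearGroup (Fin d) ℂ) : Matrix (Fin d) (Fin d) ℂ) =
      g.1 * A.1 * (g⁻¹).1 := rfl
  rw [e0]
  change aeval A.1 p = 0 at h
  generalize g.1 = P at *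
  generalize (g⁻¹).1 = Q at *
  generalize A.1 = B at *
  have key : ∀ q : ℂ[X], aeval (P * B * Q) q = P * aeval B q * Q := by
    intro q
    induction q using Polynomial.induction_on' with
    | add a b ha hb => rw [map_add, map_add, ha, hb, mul_add, add_mul]
    | monomial n a =>
      rw [aeval_monomial, aeval_monomial]
      have hpow : ∀ k : ℕ, (P * B * Q) ^ k = P * B ^ k * Q := by
        intro k
        induction k with
        | zero => rw [pow_zero, pow_zero, mul_one, h1]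
        | succ k ih =>
          rw [pow_succ, ih]
          calc P * B ^ k * Q * (P * B * Q) = P * B ^ k * (Q * P) * B * Q := by noncomm_ring
            _ = P * B ^ (k + 1) * Q := by rw [h2, pow_succ]; noncomm_ring
      rw [hpow, Algebra.algebraMap_eq_smul_one, smul_mul_assoc, one_mul, smul_mul_assoc, one_mul,
        mul_smul_comm, smul_mul_assoc]
  rw [key, h, mul_zero, zero_mul]

theorem poly_case {K : Type u} [Field K] (h2 : (2 : K) ≠ 0) (h3 : (3 : K) ≠ 0) {n d : ℕ}
    (hn : 3 ≤ n) (ρ : FreeGroup (Fin n) →* GeneralLinearGroup (Fin d) K) (p : K[X]) (hp0 : p ≠ 0)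
    (hp2 : p.natDegree ≤ 2)
    (hp : ∀ g, Primitive g → aeval (ρ g : Matrix (Fin d) (Fin d) K) p = 0) :
    Group.IsNilpotent ρ.range := by
  obtain ⟨α, β, γ, hpp⟩ : ∃ α β γ : K, p = C α * X ^ 2 + C β * X + C γ :=
    ⟨_, _, _, eq_quadratic_of_degree_le_two (natDegree_le_iff_degree_le.1 hp2)⟩
  refine Pool.Agent.TH95.PR.quad_nilp hn h2 h3 ρ α β γ ?_ ?_
  · rintro ⟨rfl, rfl, rfl⟩
    apply hp0
    rw [hpp]; simp
  · intro g hg
    have h := hp g hg
    rw [hpp] at h
    simp only [map_add, map_mul, aeval_C, map_pow, aeval_X, Algebra.algebraMap_eq_smul_one,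
      smul_mul_assoc, one_mul] at h
    simpa [pow_two] using h

theorem result :
    (∀ (K : Type u) [Field K], (2 : K) ≠ 0 → (3 : K) ≠ 0 →
      ∀ (n d : ℕ) (ρ : FreeGroup (Fin n) →* GeneralLinearGroup (Fin d) K),
        (∀ g, Primitive g → Cubic (ρ g : Matrix (Fin d) (Fin d) K)) →
        UnipotentSet (Set.range fun g => (ρ g : Matrix (Fin d) (Fin d) K)) ∧
          Group.IsNilpotent ρ.range) ∧
    (∀ (K : Type u) [Field K], (2 : K) ≠ 0 → (3 : K) ≠ 0 →
      ∀ (n d : ℕ), 3 ≤ n → ∀ (ρ : FreeGroup (Fin n) →* GeneralLinearGroup (Fin d) K) (p : K[X]),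
        p ≠ 0 → p.natDegree ≤ 2 →
        (∀ g, Primitive g → aeval (ρ g : Matrix (Fin d) (Fin d) K) p = 0) →
        Group.IsNilpotent ρ.range) ∧
    (∀ (n d : ℕ) (ρ : FreeGroup (Fin n) →* SpecialLinearGroup (Fin d) ℂ), Characteristic ρ →
      (∃ i, Cubic (ρ (FreeGroup.of i) : Matrix (Fin d) (Fin d) ℂ)) →
      UnipotentSet (Set.range fun g => (ρ g : Matrix (Fin d) (Fin d) ℂ)) ∧
        Group.IsNilpotent ρ.range) ∧
    ∀ (n d : ℕ) (ρ : FreeGroup (Fin n) →* SpecialLinearGroup (Fin d) ℂ), 3 ≤ n →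
      Characteristic ρ → (∃ i, QuadMatrix (ρ (FreeGroup.of i) : Matrix (Fin d) (Fin d) ℂ)) →
      Group.IsNilpotent ρ.range := by
  have main : ∀ (K : Type u) [Field K], (2 : K) ≠ 0 → (3 : K) ≠ 0 →
      ∀ (n d : ℕ) (ρ : FreeGroup (Fin n) →* GeneralLinearGroup (Fin d) K),
        (∀ g, Primitive g → Cubic (ρ g : Matrix (Fin d) (Fin d) K)) →
        UnipotentSet (Set.range fun g => (ρ g : Matrix (Fin d) (Fin d) K)) ∧
          Group.IsNilpotent ρ.range := by
    intro K _ h2 h3 n d ρ hc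
    exact ⟨set_of _ fun l hl => Pool.Agent.TH95.PR.mat_unip h2 h3 ρ hc l hl,
      Pool.Agent.TH95.PR.mat_nilp h2 h3 ρ hc⟩
  refine ⟨main, fun K _ h2 h3 n d hn ρ p hp0 hp2 hp => poly_case h2 h3 hn ρ p hp0 hp2 hp, ?_, ?_⟩
  swap
  · intro n d ρ hn hch ⟨i, p, hp0, hp2, hp⟩
    let ι : SpecialLinearGroup (Fin d) ℂ →* GeneralLinearGroup (Fin d) ℂ :=
      SpecialLinearGroup.toGL
    have hι : Function.Injective ι := by
      intro A B h
      apply Subtype.ext
      have := congrArg (fun M : GeneralLinearGroup (Fin d) ℂ => (M : Matrix (Fin d) (Fin d) ℂ)) h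
      exact this
    have hprim : ∀ g, Primitive g → aeval (ρ g : Matrix (Fin d) (Fin d) ℂ) p = 0 := by
      rintro g ⟨σ, j, rfl⟩
      obtain ⟨P, hP⟩ := hch ((FreeGroup.freeGroupCongr (Equiv.swap i j)).trans σ)
      have h1 := hP (FreeGroup.of i)
      rw [MulEquiv.trans_apply, FreeGroup.freeGroupCongr_apply, FreeGroup.map.of,
        Equiv.swap_apply_left] at h1
      rw [h1]
      exact conj_quad hp
    have hnil : Group.IsNilpotent (ι.comp ρ).range :=
      poly_case two_ne_zero three_ne_zero hn (ι.comp ρ) p hp0 hp2 hprim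
    rw [← MonoidHom.map_range] at hnil
    exact (Group.isNilpotent_congr (ρ.range.equivMapOfInjective ι hι)).2 hnil
  intro n d ρ hch ⟨i, hi⟩
  have hprim : ∀ g, Primitive g → Cubic (ρ g : Matrix (Fin d) (Fin d) ℂ) := by
    rintro g ⟨σ, j, rfl⟩
    obtain ⟨P, hP⟩ := hch ((FreeGroup.freeGroupCongr (Equiv.swap i j)).trans σ)
    have h1 := hP (FreeGroup.of i)
    rw [MulEquiv.trans_apply, FreeGroup.freeGroupCongr_apply, FreeGroup.map.of,
      Equiv.swap_apply_left] at h1
    rw [h1]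
    exact conj_cubic hi
  let ι : SpecialLinearGroup (Fin d) ℂ →* GeneralLinearGroup (Fin d) ℂ :=
    SpecialLinearGroup.toGL
  have hι : Function.Injective ι := by
    intro A B h
    apply Subtype.ext
    have := congrArg (fun M : GeneralLinearGroup (Fin d) ℂ => (M : Matrix (Fin d) (Fin d) ℂ)) h
    exact this
  have hc : ∀ g ∈ Pool.Agent.TH95.PR.Prim n,
      (((ι.comp ρ) g : Matrix (Fin d) (Fin d) ℂ) - 1) ^ 3 = 0 := fun g hg => hprim g hg
  refine ⟨set_of _ fun l hl => Pool.Agent.TH95.PR.mat_unip two_ne_zero three_ne_zero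
    (ι.comp ρ) hc l hl, ?_⟩
  exact Pool.Agent.TH95.PR.nilp (n := n)
    (((Pool.Agent.TH95.PR.toEnd ℂ d).comp ι).comp ρ.range.subtype) ρ.rangeRestrict
    two_ne_zero three_ne_zero ρ.rangeRestrict_surjective
    (fun g hg => Pool.Agent.TH95.PR.toEnd_cube (hc g hg))
    ((Pool.Agent.TH95.PR.toEnd_inj.comp hι).comp Subtype.val_injective)

end Pool.Agent.Results.MP_b319aa_al.JordanBlocksAtMostThree
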