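import Mathlib
import Pool.Agent.TH35.CH.Span

set_option autoImplicit false

/-! Characteristic representations of `F_n` of dimension `d` with `d^2 < 2^(n/2-5)` have nilpotent
image, whatever their type. -/

namespace Pool.Agent.Results.MP_b319aa_al.SmallCharacteristicNilpotent

theorem result :
    (∀ (n d : ℕ), d ^ 2 < 2 ^ (n / 2 - 5) →
      ∀ ρ : FreeGroup (Fin n) →* Matrix.SpecialLinearGroup (Fin d) ℂ,
        (∀ σ : FreeGroup (Fin n) ≃* FreeGroup (Fin n),
          ∃ g : Matrix.SpecialLinearGroup (Fin d) ℂ,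
            ∀ x : FreeGroup (Fin n), ρ (σ x) = g * ρ x * g⁻¹) →
        Group.IsNilpotent ρ.range) ∧
    (∀ (K : Type) [Field K] (n d : ℕ), d ^ 2 < 2 ^ (n / 2 - 5) →
      ∀ ρ : FreeGroup (Fin n) →* Matrix.GeneralLinearGroup (Fin d) K,
        (∀ σ : FreeGroup (Fin n) ≃* FreeGroup (Fin n),
          ∃ g : Matrix.GeneralLinearGroup (Fin d) K,
            ∀ x : FreeGroup (Fin n), ρ (σ x) = g * ρ x * g⁻¹) →
        (ρ.range).lowerCentralSeries (d ^ 2 + 1) = ⊥) := by
  constructor
  · intro n d hd ρ hc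
    let m : Matrix.SpecialLinearGroup (Fin d) ℂ →* Matrix.GeneralLinearGroup (Fin d) ℂ :=
      Matrix.SpecialLinearGroup.toGL
    have hm : Function.Injective m := Matrix.SpecialLinearGroup.toGL_injective
    have h1 := Pool.Agent.TH35.CH.char_nil hd (m.comp ρ) (by
      intro σ
      obtain ⟨g, hg⟩ := hc σ
      refine ⟨m g, ?_⟩
      intro x
      have h := congrArg m (hg x)
      rw [map_mul, map_mul, map_inv] at h
      exact h)
    rw [MonoidHom.range_comp, ← Subgroup.map_lowerCentralSeries,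
      Subgroup.map_eq_bot_iff_of_injective _ hm] at h1
    exact (Subgroup.isNilpotent_iff_lowerCentralSeries _).2 ⟨_, h1⟩
  · intro K _ n d hd ρ hc
    exact Pool.Agent.TH35.CH.char_nil hd ρ hc

end Pool.Agent.Results.MP_b319aa_al.SmallCharacteristicNilpotent
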